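import Pool.Agent.H67.LW.Base

/-!
# LW, part VD: the sides of the clusters seen from `h`
-/

set_option autoImplicit false

namespace LW

open Finset

section

variable {V : Type} [Fintype V] [DecidableEq V] {G : SimpleGraph V} {C : Finset V} {h : V}

theorem vd_adj_mem {x y : V} (hxy : (gr G C).Adj x y) : x ∈ C ∪ nbr G C ∧ y ∈ C ∪ nbr G C := by
  obtain ⟨h1, h2⟩ := hxy
  constructor
  · by_cases hx : x ∈ C
    · exact mem_union_left _ hx
    · rcases h2 with h2 | h2
      · exact absurd h2 hx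
      · exact mem_union_right _ (mem_nbr.2 ⟨hx, y, h2, h1.symm⟩)
  · by_cases hy : y ∈ C
    · exact mem_union_left _ hy
    · rcases h2 with h2 | h2
      · exact mem_union_right _ (mem_nbr.2 ⟨hy, x, h2, h1⟩)
      · exact absurd h2 hy

/-- leaving the side is only possible from the cluster -/
theorem vd_leave {D : Finset V} {x y : V} (hx : x ∈ Vh G C h D) (hy : y ∉ Vh G C h D)
    (hxy : (gr G C).Adj x y) : x ∈ D := by
  rw [mem_Vh] at hx hy
  push Not at hy
  have h1 := hy (vd_adj_mem hxy).2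
  by_contra hxD
  exact hx.2 (h1.tail hxy.symm (mem_sdiff.2 ⟨mem_univ _, hxD⟩))

/-- a connected set inside `C` avoiding `D'` -/
theorem vd_conn {D D' : Finset V} (hD : ConnS G D) (hDC : D ⊆ C) (hdis : Disjoint D D') {u v : V}
    (hu : u ∈ D) (hv : v ∈ D) : Lk (gr G C) (univ \ D') u v := by
  have h1 : Lk (gr G C) D u v := (hD.2 u hu v hv).mono_adj fun x hx y _ hxy =>
    ⟨hxy, Or.inl (hDC hx)⟩
  refine h1.mono fun x hx => mem_sdiff.2 ⟨mem_univ _, fun hx' => ?_⟩
  exact (Finset.disjoint_left.1 hdis hx) hx'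

/-- the first alternative of the last item -/
theorem vd_nested {D D' : Finset V} (hh : h ∈ nbr G C) (hD : ConnS G D) (hDC : D ⊆ C)
    (hD' : ConnS G D') (hDC' : D' ⊆ C) (hdis : Disjoint D D')
    (hcon : ∀ u ∈ C ∪ nbr G C, ∀ v ∈ C ∪ nbr G C, Lk (gr G C) univ u v)
    {d' : V} (hd' : d' ∈ D') (hn : ¬ Lk (gr G C) (univ \ D) h d') :
    Vh G C h D' ⊂ Vh G C h D ∧ D' ⊆ Vh G C h D ∧ Disjoint D (Vh G C h D') := by
  have hhC : h ∉ C := (mem_nbr.1 hh).1
  have hall : ∀ x ∈ D', ¬ Lk (gr G C) (univ \ D) h x := fun x hx hL =>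
    hn (hL.trans (vd_conn hD' hDC' hdis.symm hx hd'))
  have hsub' : D' ⊆ Vh G C h D := fun x hx =>
    mem_Vh.2 ⟨mem_union_left _ (hDC' hx), hall x hx⟩
  have hK : ∀ x, Lk (gr G C) (univ \ D) h x → Lk (gr G C) (univ \ D') h x := by
    intro x hx
    have := hx.induct (p := fun y => Lk (gr G C) (univ \ D) h y ∧ Lk (gr G C) (univ \ D') h y)
      ⟨Lk.refl (mem_sdiff.2 ⟨mem_univ _, fun hc => hhC (hDC hc)⟩),
        Lk.refl (mem_sdiff.2 ⟨mem_univ _, fun hc => hhC (hDC' hc)⟩)⟩ (by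
        rintro y _ z hz hyz ⟨h1, h2⟩
        have h3 := h1.tail hyz hz
        refine ⟨h3, h2.tail hyz (mem_sdiff.2 ⟨mem_univ _, fun hc => ?_⟩)⟩
        exact hall z hc h3)
    exact this.2
  have hVV : Vh G C h D' ⊆ Vh G C h D := by
    intro x hx
    rw [mem_Vh] at hx ⊢
    exact ⟨hx.1, fun hc => hx.2 (hK x hc)⟩
  obtain ⟨d, hd⟩ := hD.1
  have hex : ∃ x ∈ D, Lk (gr G C) (univ \ D') h x := by
    have hL := hcon d (mem_union_left _ (hDC hd)) h (mem_union_right _ hh)
    obtain ⟨x, _, y, _, hx, hy, hxy⟩ := hL.exit (S := Vh G C h D)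
      (mem_Vh.2 ⟨mem_union_left _ (hDC hd), fun hc => (mem_sdiff.1 hc.right).2 hd⟩) (by
        rw [mem_Vh]
        push Not
        intro _
        exact Lk.refl (mem_sdiff.2 ⟨mem_univ _, fun hc => hhC (hDC hc)⟩))
    have hxD := vd_leave hx hy hxy
    refine ⟨x, hxD, ?_⟩
    have hyK : Lk (gr G C) (univ \ D) h y := by
      rw [mem_Vh] at hy
      push Not at hy
      exact hy (vd_adj_mem hxy).2
    exact (hK y hyK).tail hxy.symm
      (mem_sdiff.2 ⟨mem_univ _, fun hc => Finset.disjoint_left.1 hdis hxD hc⟩)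
  obtain ⟨x, hxD, hxL⟩ := hex
  have hDK : ∀ y ∈ D, Lk (gr G C) (univ \ D') h y := fun y hy =>
    hxL.trans (vd_conn hD hDC hdis hxD hy)
  refine ⟨⟨hVV, fun hc => ?_⟩, hsub', ?_⟩
  · have h1 : d ∈ Vh G C h D := mem_Vh.2 ⟨mem_union_left _ (hDC hd),
      fun hc => (mem_sdiff.1 hc.right).2 hd⟩
    exact (mem_Vh.1 (hc h1)).2 (hDK d hd)
  · rw [Finset.disjoint_left]
    intro y hy hyV
    exact (mem_Vh.1 hyV).2 (hDK y hy)

end

theorem vd_thm (hLM : S_LM) : S_VD := by
  intro V _ _ G k Valid X C h hDec hC hh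
  obtain ⟨L1, L2, _, _, L5⟩ := hLM V G k Valid X hDec
  have hhC : h ∉ C := (mem_nbr.1 hh).1
  have hin : ∀ D, Desc G X C D → D ⊆ Vh G C h D ∧ h ∉ Vh G C h D := by
    intro D hD
    have hDC := (L1 C D hC hD).2.1
    refine ⟨fun x hx => ?_, ?_⟩
    · rw [mem_Vh]
      exact ⟨mem_union_left _ (hDC hx), fun hc => (mem_sdiff.1 hc.right).2 hx⟩
    · rw [mem_Vh]
      push Not
      intro _
      exact Lk.refl (mem_sdiff.2 ⟨mem_univ _, fun hc => hhC (hDC hc)⟩)
  refine ⟨?_, hin, ?_, ?_, ?_⟩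
  · ext x
    rw [mem_Vh, mem_erase]
    constructor
    · rintro ⟨h1, h2⟩
      refine ⟨?_, h1⟩
      rintro rfl
      exact h2 (Lk.refl (mem_sdiff.2 ⟨mem_univ _, hhC⟩))
    · rintro ⟨h1, h2⟩
      refine ⟨h2, fun hc => h1 ?_⟩
      exact hc.induct (p := fun y => y = h) rfl (by
        intro y hy z hz hyz _
        exfalso
        rcases hyz.2 with h3 | h3
        · exact (mem_sdiff.1 hy).2 h3
        · exact (mem_sdiff.1 hz).2 h3)
  · intro D D' _ _ hDD' x hx
    rw [mem_Vh] at hx ⊢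
    refine ⟨hx.1, fun hc => hx.2 (hc.mono ?_)⟩
    exact sdiff_subset_sdiff (Subset.refl _) hDD'
  · intro D _ x y hx hy hxy
    exact vd_leave hx hy hxy
  · intro D D' hD hD' hdis
    obtain ⟨vD, hDC, _, _⟩ := L1 C D hC hD
    obtain ⟨vD', hDC', _, _⟩ := L1 C D' hC hD'
    have cD := hDec.conn D vD
    have cD' := hDec.conn D' vD'
    obtain ⟨d, hd⟩ := cD.1
    obtain ⟨d', hd'⟩ := cD'.1
    have hnon : ∀ u ∈ D, ∀ v ∈ D', ¬ G.Adj u v := by
      rcases L2 C D D' hC hD hD' with h1 | h1 | h1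
      · exact absurd ((L1 D D' vD h1).2.1 hd') (fun hc => Finset.disjoint_left.1 hdis hc hd')
      · exact absurd ((L1 D' D vD' h1).2.1 hd) (Finset.disjoint_left.1 hdis hd)
      · exact h1.2
    by_cases c1 : Lk (gr G C) (univ \ D) h d'
    · by_cases c2 : Lk (gr G C) (univ \ D') h d
      · left
        have hK' : ∀ x ∈ D', Lk (gr G C) (univ \ D) h x := fun x hx =>
          c1.trans (vd_conn cD' hDC' hdis.symm hd' hx)
        have hK : ∀ x ∈ D, Lk (gr G C) (univ \ D') h x := fun x hx =>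
          c2.trans (vd_conn cD hDC hdis hd hx)
        have hdisj : Disjoint (Vh G C h D) (Vh G C h D') := by
          rw [Finset.disjoint_left]
          intro x hx hx'
          have hxC := (mem_Vh.1 hx).1
          have hL := L5 C hC x hxC h (mem_union_right _ hh)
          have hnotD' : ∀ y ∈ Vh G C h D, y ∉ D' := fun y hy hyD' =>
            (mem_Vh.1 hy).2 (hK' y hyD')
          have key := hL.induct (p := fun y =>
            (Lk (gr G C) (univ \ D') x y ∧ y ∈ Vh G C h D) ∨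
              ∃ z ∈ D, Lk (gr G C) (univ \ D') x z)
            (Or.inl ⟨Lk.refl (mem_sdiff.2 ⟨mem_univ _, hnotD' x hx⟩), hx⟩) (by
              intro y _ z _ hyz hp
              rcases hp with ⟨h1, h2⟩ | h1
              · by_cases hz : z ∈ Vh G C h D
                · exact Or.inl ⟨h1.tail hyz (mem_sdiff.2 ⟨mem_univ _, hnotD' z hz⟩), hz⟩
                · exact Or.inr ⟨y, vd_leave h2 hz hyz, h1⟩
              · exact Or.inr h1)
          rcases key with ⟨_, h2⟩ | ⟨z, hz, hzL⟩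
          · exact (hin D hD).2 h2
          · exact (mem_Vh.1 hx').2 ((hK z hz).trans hzL.symm)
        refine ⟨hdisj, fun x hx y hy hxy => ?_⟩
        have h1 := vd_leave hx (fun hc => Finset.disjoint_left.1 hdisj hc hy) hxy
        have h2 := vd_leave hy (fun hc => Finset.disjoint_left.1 hdisj hx hc) hxy.symm
        exact hnon x h1 y h2 hxy.1
      · right; right
        exact vd_nested hh cD' hDC' cD hDC hdis.symm (L5 C hC) hd c2
    · right; left
      exact vd_nested hh cD hDC cD' hDC' hdis (L5 C hC) hd' c1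

end LW
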